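import Pool.Agent.Y746.OM.Stm
import Pool.Agent.H370R2.PC2
import Pool.Agent.H370R2.DirGood

/-!
# Reduction to the ordinates
-/

set_option autoImplicit false

namespace Pool.Agent.Y929.OM

open Filter Topology MeasureTheory
open H370 (zset mult NN Zf zz)
open Pool.Agent.Y746.OM

lemma quarter (x : ℝ) : Real.exp (-x ^ 2 / 4) ≤ Real.exp 2 *
    Real.exp (-|((⌊x⌋ : ℤ) : ℝ)|) := by
  rw [← Real.exp_add]
  apply Real.exp_le_exp.mpr
  have h1 := Int.floor_le x
  have h2 := Int.lt_floor_add_one x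
  have h3 : |((⌊x⌋ : ℤ) : ℝ)| ≤ |x| + 1 := by
    rw [abs_le]
    constructor
    · have := neg_abs_le x; linarith
    · have := le_abs_self x; linarith
  have h4 : |x| ≤ x ^ 2 / 4 + 1 := by
    have : x ^ 2 = |x| ^ 2 := (sq_abs x).symm
    rw [this]; nlinarith [sq_nonneg (|x| - 2)]
  linarith

lemma sum4 : ∃ C : ℝ, 0 < C ∧ ∀ T : ℝ, 4 ≤ T → ∀ U1 U2 : ℝ, T ≤ U1 → U2 ≤ 2 * T →
    ∀ t : ℝ, ∑ s ∈ Zf riemannZeta U1 U2, (mult riemannZeta s : ℝ) *
      Real.exp (-(s.im - t) ^ 2 / 4) ≤ C * Real.log T := by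
  obtain ⟨C, hC, h⟩ := H370.local_sum H370.good_zeta
  set S := ∑' k : ℤ, Real.exp (-|(k : ℝ)|) with hS
  have hS0 : 0 < S :=
    H370.summable_exp_abs.tsum_pos (fun k => (Real.exp_pos _).le) 0 (Real.exp_pos _)
  refine ⟨C * (Real.exp 2 * S), by positivity, fun T hT U1 U2 hU1 hU2 t => ?_⟩
  have h1 := h T hT U1 U2 hU1 hU2 t (fun k => Real.exp 2 * Real.exp (-|(k : ℝ)|))
    (fun k => by positivity) (fun s => Real.exp (-(s.im - t) ^ 2 / 4))
    (fun s _ => quarter _)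
  refine h1.trans ?_
  have hlog : 0 ≤ Real.log T := Real.log_nonneg (by linarith)
  rw [← Finset.mul_sum]
  have h2 : ∑ k ∈ (Zf riemannZeta U1 U2).image (fun s => ⌊s.im - t⌋), Real.exp (-|(k : ℝ)|) ≤ S :=
    H370.summable_exp_abs.sum_le_tsum _ (fun k _ => (Real.exp_pos _).le)
  calc C * Real.log T * (Real.exp 2 *
        ∑ k ∈ (Zf riemannZeta U1 U2).image (fun s => ⌊s.im - t⌋), Real.exp (-|(k : ℝ)|)) ≤
      C * Real.log T * (Real.exp 2 * S) := by gcongr
    _ = _ := by ring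

/-- **Reduction to the ordinates.** -/
theorem t_NL (hK : S_KER) : S_NL := by
  classical
  obtain ⟨Ck, hCk, hKer⟩ := hK
  obtain ⟨Cl, hCl, hsum⟩ := sum4
  have hev : ∀ᶠ T : ℝ in atTop, 8 * Real.log (Real.log T) ≤ (Real.log T) ^ (1 / 3 : ℝ) ∧
      1 ≤ Real.log (Real.log T) ∧ 10 ≤ T := by
    have h1 : ∀ᶠ x : ℝ in atTop, 8 * Real.log x ≤ x ^ (1 / 3 : ℝ) := by
      have h2 := (isLittleO_log_rpow_atTop (r := 1 / 3) (by norm_num)).bound
        (show (0 : ℝ) < 1 / 8 by norm_num)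
      filter_upwards [h2, eventually_ge_atTop 1] with x hx hx1
      rw [Real.norm_of_nonneg (Real.log_nonneg hx1),
        Real.norm_of_nonneg (Real.rpow_nonneg (by linarith) _)] at hx
      linarith
    have h3 : ∀ᶠ x : ℝ in atTop, 1 ≤ Real.log x := Real.tendsto_log_atTop.eventually_ge_atTop 1
    filter_upwards [Real.tendsto_log_atTop.eventually h1, Real.tendsto_log_atTop.eventually h3,
      eventually_ge_atTop 10] with T e1 e2 e3
    exact ⟨e1, e2, e3⟩
  obtain ⟨T1, hT1⟩ := hev.exists_forall_of_atTop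
  refine ⟨Ck * 512 * Cl + 24, max T1 10, by positivity, le_max_right _ _, ?_⟩
  intro T hT U1 U2 hU1 hU12 hU2 t
  obtain ⟨hB3, hLL, hT10⟩ := hT1 T ((le_max_left _ _).trans hT)
  obtain ⟨L, hL⟩ : ∃ L, L = Real.log T := ⟨_, rfl⟩
  obtain ⟨B, hB⟩ : ∃ B, B = 8 * Real.log L := ⟨_, rfl⟩
  rw [← hL] at hB3 hLL ⊢
  have hL0 : 0 < L := by
    by_contra hcon
    push Not at hcon
    have : L = Real.log T := hL
    have h4 : 0 < Real.log T := Real.log_pos (by linarith)
    linarith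
  have hLlog : Real.log L ≤ L := (Real.log_le_sub_one_of_pos hL0).trans (by linarith)
  have hL1 : 1 ≤ L := hLL.trans hLlog
  have hB1 : 1 ≤ B := by rw [hB]; linarith
  obtain ⟨a, ha⟩ : ∃ a : ℝ, a = L ^ (-(1 / 3) : ℝ) := ⟨_, rfl⟩
  have ha0 : 0 < a := by
    rw [ha]
    exact Real.rpow_pos_of_pos hL0 _
  have haL : a * L ^ (1 / 3 : ℝ) = 1 := by
    rw [ha, ← Real.rpow_add hL0]
    norm_num
  have haB : a * B ≤ 1 := by
    rw [← haL]
    apply mul_le_mul_of_nonneg_left _ ha0.le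
    rw [hB]
    exact hB3
  have ha2 : a ^ 2 * L = L ^ (1 / 3 : ℝ) := by
    have h5 : a ^ 2 = L ^ (-(2 / 3) : ℝ) := by
      rw [ha, ← Real.rpow_natCast, ← Real.rpow_mul hL0.le]
      norm_num
    rw [h5]
    nth_rewrite 2 [← Real.rpow_one L]
    rw [← Real.rpow_add hL0]
    norm_num
  have hexp : Real.exp (B / 2) = L ^ 4 := by
    have h5 : B / 2 = (4 : ℕ) * Real.log L := by
      rw [hB]
      push_cast
      ring
    rw [h5, Real.exp_nat_mul, Real.exp_log hL0]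
  obtain ⟨-, hKR, -, -, -, hKBw, hKBn, -⟩ := hKer B hB1
  rw [← hB, ← ha]
  have hU1' : 1 ≤ U1 := by linarith
  have hT' : 1 ≤ T := by linarith
  -- the pointwise bound
  have hD : ∀ s ∈ Zf riemannZeta U1 U2, |(KB B (zz s - t)).re - KR B (s.im - t)| ≤
      Ck * a ^ 2 * B ^ 3 * Real.exp (-(s.im - t) ^ 2 / 4) +
        if a ≤ |s.re - 1 / 2| then 24 * L ^ 5 * Real.exp (-(s.im - t) ^ 2 / 2) else 0 := by
    intro s hs
    have hs' := (H370.mem_Zf H370.good_zeta hU1').mp hs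
    have hre : (zz s - (t : ℂ)).re = s.im - t := by
      rw [Complex.sub_re, H370.zz_re, Complex.ofReal_re]
    have him : (zz s - (t : ℂ)).im = -(s.re - 1 / 2) := by
      rw [Complex.sub_im, H370.zz_im, Complex.ofReal_im, sub_zero]
    have hhalf : |(zz s - (t : ℂ)).im| ≤ 1 / 2 := by
      rw [him, abs_neg, abs_le]
      constructor
      · linarith [hs'.1]
      · linarith [hs'.2.1]
    by_cases hfar : a ≤ |s.re - 1 / 2|
    · rw [if_pos hfar]
      have h6 := hKBw (zz s - t) hhalf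
      rw [hre, hexp] at h6
      have h7 := Complex.abs_re_le_norm (KB B (zz s - t))
      obtain ⟨h8, h9⟩ := hKR (s.im - t)
      have h10 : |(KB B (zz s - t)).re - KR B (s.im - t)| ≤
          2 * B * L ^ 4 * Real.exp (-(s.im - t) ^ 2 / 2) + B * Real.exp (-(s.im - t) ^ 2 / 2) := by
        calc |(KB B (zz s - t)).re - KR B (s.im - t)| ≤
            |(KB B (zz s - t)).re| + |KR B (s.im - t)| := abs_sub _ _
          _ ≤ _ := by
            rw [abs_of_nonneg h8]
            exact add_le_add (h7.trans h6) h9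
      refine h10.trans ?_
      have h11 : 0 ≤ Ck * a ^ 2 * B ^ 3 * Real.exp (-(s.im - t) ^ 2 / 4) := by positivity
      have h12 : 2 * B * L ^ 4 + B ≤ 24 * L ^ 5 := by
        have h13 : B ≤ 8 * L := by rw [hB]; linarith
        have h14 : 1 ≤ L ^ 4 := one_le_pow₀ hL1
        have h15 : B * 1 ≤ B * L ^ 4 := mul_le_mul_of_nonneg_left h14 (by linarith)
        have h16 : B * L ^ 4 ≤ 8 * L * L ^ 4 := mul_le_mul_of_nonneg_right h13 (by positivity)
        have h17 : L ^ 5 = L * L ^ 4 := by ring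
        rw [h17]
        linarith
      have h18 := mul_le_mul_of_nonneg_right h12 (Real.exp_pos (-(s.im - t) ^ 2 / 2)).le
      linarith
    · rw [if_neg hfar, add_zero]
      push Not at hfar
      have h6 : |(zz s - (t : ℂ)).im| * B ≤ 1 := by
        rw [him, abs_neg]
        exact (mul_le_mul_of_nonneg_right hfar.le (by linarith)).trans haB
      have h7 := hKBn (zz s - t) h6
      rw [hre, him] at h7
      refine h7.trans ?_
      have h8 : (-(s.re - 1 / 2)) ^ 2 ≤ a ^ 2 := by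
        rw [neg_sq, ← sq_abs (s.re - 1 / 2)]
        exact pow_le_pow_left₀ (abs_nonneg _) hfar.le 2
      have hB0 : 0 ≤ B := by linarith
      gcongr
  -- the sum
  have hstep : |(∑ s ∈ Zf riemannZeta U1 U2, (mult riemannZeta s : ℝ) * (KB B (zz s - t)).re) -
      ∑ s ∈ Zf riemannZeta U1 U2, (mult riemannZeta s : ℝ) * KR B (s.im - t)| ≤
      Ck * a ^ 2 * B ^ 3 * (∑ s ∈ Zf riemannZeta U1 U2, (mult riemannZeta s : ℝ) *
        Real.exp (-(s.im - t) ^ 2 / 4)) +
      24 * L ^ 5 * ∑ s ∈ (Zf riemannZeta U1 U2).filter (fun s => a ≤ |s.re - 1 / 2|),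
        (mult riemannZeta s : ℝ) * Real.exp (-(s.im - t) ^ 2 / 2) := by
    rw [← Finset.sum_sub_distrib, Finset.sum_filter, Finset.mul_sum, Finset.mul_sum,
      ← Finset.sum_add_distrib]
    refine (Finset.abs_sum_le_sum_abs _ _).trans (Finset.sum_le_sum fun s hs => ?_)
    rw [← mul_sub, abs_mul, abs_of_nonneg (Nat.cast_nonneg _)]
    have h6 := mul_le_mul_of_nonneg_left (hD s hs) (Nat.cast_nonneg (α := ℝ) (mult riemannZeta s))
    refine h6.trans (le_of_eq ?_)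
    split_ifs
    · ring
    · ring
  refine hstep.trans (add_le_add ?_ ?_)
  · have h6 := hsum T (by linarith) U1 U2 hU1 hU2 t
    rw [← hL] at h6
    have hB0 : 0 ≤ B := by linarith
    calc Ck * a ^ 2 * B ^ 3 * (∑ s ∈ Zf riemannZeta U1 U2, (mult riemannZeta s : ℝ) *
        Real.exp (-(s.im - t) ^ 2 / 4)) ≤ Ck * a ^ 2 * B ^ 3 * (Cl * L) := by gcongr
      _ = Ck * 512 * Cl * (a ^ 2 * L) * (Real.log L) ^ 3 := by
        rw [hB]
        ring
      _ = Ck * 512 * Cl * L ^ (1 / 3 : ℝ) * (Real.log L) ^ 3 := by rw [ha2]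
      _ ≤ (Ck * 512 * Cl + 24) * L ^ (1 / 3 : ℝ) * (Real.log L) ^ 3 := by
        have h7 : 0 ≤ Real.log L := by linarith
        gcongr
        linarith
  · have h6 : ∑ s ∈ (Zf riemannZeta U1 U2).filter (fun s => a ≤ |s.re - 1 / 2|),
        (mult riemannZeta s : ℝ) * Real.exp (-(s.im - t) ^ 2 / 2) ≤
        ∑ s ∈ (Zf riemannZeta T (2 * T)).filter (fun s => a ≤ |s.re - 1 / 2|),
        (mult riemannZeta s : ℝ) * Real.exp (-(s.im - t) ^ 2 / 2) := by
      refine Finset.sum_le_sum_of_subset_of_nonneg ?_ fun _ _ _ => by positivity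
      intro s hs
      rw [Finset.mem_filter] at hs ⊢
      refine ⟨?_, hs.2⟩
      have hs' := (H370.mem_Zf H370.good_zeta hU1').mp hs.1
      rw [H370.mem_Zf H370.good_zeta hT']
      exact ⟨hs'.1, hs'.2.1, lt_of_le_of_lt hU1 hs'.2.2.1, hs'.2.2.2.1.trans hU2, hs'.2.2.2.2⟩
    have h7 : 0 ≤ ∑ s ∈ (Zf riemannZeta T (2 * T)).filter (fun s => a ≤ |s.re - 1 / 2|),
        (mult riemannZeta s : ℝ) * Real.exp (-(s.im - t) ^ 2 / 2) :=
      Finset.sum_nonneg fun _ _ => by positivity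
    have h8 : 24 * L ^ 5 ≤ (Ck * 512 * Cl + 24) * L ^ 5 := by
      have : 0 ≤ Ck * 512 * Cl * L ^ 5 := by positivity
      linarith
    exact mul_le_mul h8 h6 (Finset.sum_nonneg fun _ _ => by positivity) (by positivity)

end Pool.Agent.Y929.OM
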